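import Pool.Agent.helper81.CI.Spec

/-!
# Project ci (MP_447e26_gt): module SLI
-/

set_option autoImplicit false

open MeasureTheory Set Filter Topology
open scoped ENNReal
open Pool.Agent.helper81.CW Pool.Agent.CL

noncomputable section

namespace Pool.Agent.CI

lemma SLI_lc {n : ℕ} (C : Set (E n)) (hLGI : LGI_stmt) (hc : IsCompact C) (hne : C.Nonempty)
    (hfin : ∀ ρ : ℝ, NN C ρ < ∞) {ρ σ : ℝ} (hρ : ρ < 1) (hσ : 1 < σ)
    (h0 : 0 < (NN C ρ).toReal) (h1 : 0 < (NN C 1).toReal) (h2 : 0 < (NN C σ).toReal) :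
    (1 - ρ) * (Real.log (NN C σ).toReal - Real.log (NN C 1).toReal) ≤
      (σ - 1) * (Real.log (NN C 1).toReal - Real.log (NN C ρ).toReal) := by
  have hd : 0 < σ - ρ := by linarith
  set l : ℝ := (σ - 1) / (σ - ρ) with hl
  have hl0 : 0 < l := div_pos (by linarith) hd
  have hl1 : l < 1 := by rw [hl, div_lt_one hd]; linarith
  have hll : l * (σ - ρ) = σ - 1 := div_mul_cancel₀ _ hd.ne'
  have e1 : l * ρ + (1 - l) * σ = 1 := by linarith
  have h := hLGI n C ρ σ l hc hne hl0 hl1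
  rw [e1] at h
  have h' := ENNReal.toReal_mono (hfin 1).ne h
  rw [ENNReal.toReal_mul, ← ENNReal.toReal_rpow, ← ENNReal.toReal_rpow] at h'
  have h3 : 0 < (NN C ρ).toReal ^ l := Real.rpow_pos_of_pos h0 _
  have h4 : 0 < (NN C σ).toReal ^ (1 - l) := Real.rpow_pos_of_pos h2 _
  have h5 := Real.log_le_log (mul_pos h3 h4) h'
  rw [Real.log_mul h3.ne' h4.ne', Real.log_rpow h0, Real.log_rpow h2] at h5
  have h6 : (σ - ρ) * (l * Real.log (NN C ρ).toReal + (1 - l) * Real.log (NN C σ).toReal) ≤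
      (σ - ρ) * Real.log (NN C 1).toReal := mul_le_mul_of_nonneg_left h5 hd.le
  have h7 : (σ - ρ) * (l * Real.log (NN C ρ).toReal + (1 - l) * Real.log (NN C σ).toReal) =
      (l * (σ - ρ)) * Real.log (NN C ρ).toReal + ((σ - ρ) - l * (σ - ρ)) *
        Real.log (NN C σ).toReal := by ring
  rw [h7, hll] at h6
  nlinarith [h6]

theorem SLI (hPNI : PNI_stmt) (hLGI : LGI_stmt) (hGRI : GRI_stmt) : SLI_stmt := by
  intro n C hC
  obtain ⟨hVpos, hfin, _, hmono⟩ := hPNI n C hC
  have hc : IsCompact C := hC.2.1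
  have hne : C.Nonempty := hC.1
  have hv1 : 0 < (NN C 1).toReal := by
    rw [ENNReal.toReal_pos_iff]
    exact ⟨hVpos, hfin 1⟩
  have hvσ : ∀ σ : ℝ, 1 ≤ σ → 0 < (NN C σ).toReal := fun σ hσ =>
    lt_of_lt_of_le hv1 (ENNReal.toReal_mono (hfin σ).ne (hmono hσ))
  set s : ℝ → ℝ := fun σ => (Real.log (NN C σ).toReal - Real.log (NN C 1).toReal) / (σ - 1)
    with hs
  set S : Set ℝ := s '' Ioi 1 with hS
  have hs0 : ∀ σ : ℝ, 1 < σ → 0 ≤ s σ := by
    intro σ hσ
    refine div_nonneg ?_ (by linarith)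
    have := Real.log_le_log hv1 (ENNReal.toReal_mono (hfin σ).ne (hmono hσ.le))
    linarith
  have hs1 : ∀ σ : ℝ, 1 < σ → s σ ≤ 4 * n := by
    intro σ hσ
    have h := hGRI n C σ hC hσ.le
    have h' := ENNReal.toReal_mono (ENNReal.mul_ne_top ENNReal.ofReal_ne_top (hfin 1).ne) h
    rw [ENNReal.toReal_mul, ENNReal.toReal_ofReal (Real.exp_pos _).le] at h'
    have h2 := Real.log_le_log (hvσ σ hσ.le) h'
    rw [Real.log_mul (Real.exp_pos _).ne' hv1.ne', Real.log_exp] at h2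
    rw [hs]
    show (Real.log (NN C σ).toReal - Real.log (NN C 1).toReal) / (σ - 1) ≤ 4 * n
    rw [div_le_iff₀ (by linarith)]
    linarith
  have hbdd : BddAbove S := ⟨4 * n, by
    rintro x ⟨σ, hσ, rfl⟩
    exact hs1 σ hσ⟩
  have hne2 : S.Nonempty := ⟨s 2, 2, by norm_num [Ioi], rfl⟩
  refine ⟨sSup S, ?_, ?_, ?_⟩
  · exact le_csSup_of_le hbdd ⟨2, by norm_num [Ioi], rfl⟩ (hs0 2 (by norm_num))
  · exact csSup_le hne2 (by
      rintro x ⟨σ, hσ, rfl⟩
      exact hs1 σ hσ)
  · intro ρ _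
    have key : ∀ x : ℝ, (NN C ρ).toReal ≤ Real.exp x * (NN C 1).toReal →
        NN C ρ ≤ ENNReal.ofReal (Real.exp x) * NN C 1 := by
      intro x hx
      rw [← ENNReal.ofReal_toReal (hfin ρ).ne, ← ENNReal.ofReal_toReal (hfin 1).ne,
        ← ENNReal.ofReal_mul (Real.exp_pos _).le]
      exact ENNReal.ofReal_le_ofReal hx
    apply key
    rcases lt_trichotomy ρ 1 with hρ | hρ | hρ
    · rcases (ENNReal.toReal_nonneg (a := NN C ρ)).eq_or_lt' with h0 | h0
      · rw [h0]
        exact mul_nonneg (Real.exp_pos _).le hv1.le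
      · have hub : sSup S ≤ (Real.log (NN C 1).toReal - Real.log (NN C ρ).toReal) / (1 - ρ) := by
          refine csSup_le hne2 ?_
          rintro x ⟨σ, hσ, rfl⟩
          have h := SLI_lc C hLGI hc hne hfin hρ hσ h0 hv1 (hvσ σ (le_of_lt hσ))
          have hσ' : 0 < σ - 1 := by
            have : (1 : ℝ) < σ := hσ
            linarith
          show (Real.log (NN C σ).toReal - Real.log (NN C 1).toReal) / (σ - 1) ≤ _
          rw [div_le_div_iff₀ hσ' (by linarith)]
          linarith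
        rw [le_div_iff₀ (by linarith)] at hub
        have h3 : Real.log (NN C ρ).toReal ≤ sSup S * (ρ - 1) + Real.log (NN C 1).toReal := by
          linarith
        calc (NN C ρ).toReal = Real.exp (Real.log (NN C ρ).toReal) := (Real.exp_log h0).symm
          _ ≤ Real.exp (sSup S * (ρ - 1) + Real.log (NN C 1).toReal) := Real.exp_le_exp.2 h3
          _ = _ := by rw [Real.exp_add, Real.exp_log hv1]
    · rw [hρ]
      simp
    · have h1 : s ρ ≤ sSup S := le_csSup hbdd ⟨ρ, hρ, rfl⟩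
      have h2 : (Real.log (NN C ρ).toReal - Real.log (NN C 1).toReal) / (ρ - 1) ≤ sSup S := h1
      rw [div_le_iff₀ (by linarith)] at h2
      have h0 := hvσ ρ hρ.le
      calc (NN C ρ).toReal = Real.exp (Real.log (NN C ρ).toReal) := (Real.exp_log h0).symm
        _ ≤ Real.exp (sSup S * (ρ - 1) + Real.log (NN C 1).toReal) := Real.exp_le_exp.2 (by linarith)
        _ = _ := by rw [Real.exp_add, Real.exp_log hv1]

end Pool.Agent.CI
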